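import Pool.Agent.H48.FXD.Defs

/-!
# The derivative of a smooth curve in the extended chart
-/

open Bundle Manifold Filter Set MeasureTheory
open scoped ContDiff Topology ENNReal

namespace Pool.Agent.H99.FXD

open Pool.Agent.H48.FXD

/-- from the derivative as a linear map to the derivative as a vector -/
theorem aux {E : Type*} [NormedAddCommGroup E] [NormedSpace ℝ E] {f : ℝ → E} {L : ℝ →L[ℝ] E}
    {t : ℝ} (h : HasFDerivAt f L t) : HasDerivAt f (L 1) t := h.hasDerivAt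

variable {E : Type*} [NormedAddCommGroup E] [NormedSpace ℝ E] [FiniteDimensional ℝ E]
  {M : Type*} [MetricSpace M] [ChartedSpace E M] [IsManifold 𝓘(ℝ, E) ∞ M]
  [RiemannianBundle (fun x : M => TangentSpace 𝓘(ℝ, E) x)]
  [IsContMDiffRiemannianBundle 𝓘(ℝ, E) ∞ E (fun x : M => TangentSpace 𝓘(ℝ, E) x)]
  [IsRiemannianManifold 𝓘(ℝ, E) M]

theorem pf_LDF {F : ℝ → M} (hF : ContMDiff 𝓘(ℝ, ℝ) 𝓘(ℝ, E) ∞ F) (t : ℝ) :
    HasDerivAt (fun s => extChartAt 𝓘(ℝ, E) (F t) (F s))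
      (mfderiv 𝓘(ℝ, ℝ) 𝓘(ℝ, E) F t (1 : ℝ)) t := by
  have h := (hF.mdifferentiableAt (by simp) (x := t)).hasMFDerivAt
  have h2 := h.2
  simp only [writtenInExtChartAt, extChartAt_model_space_eq_id, modelWithCornersSelf_coe,
    Set.range_id, hasFDerivWithinAt_univ] at h2
  have h3 : HasFDerivAt (F := E) (fun s => extChartAt 𝓘(ℝ, E) (F t) (F s))
      (mfderiv 𝓘(ℝ, ℝ) 𝓘(ℝ, E) F t : ℝ →L[ℝ] E) t := h2
  exact aux h3

end Pool.Agent.H99.FXD
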